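import Pool.Agent.H502.EC.A10

/-!
# MP_a60a76_nt: congruences between the numbers of points at slightly more than half of the places decide whether two elliptic curves are `p`-congruent

Let `K` be a number field (for instance `ℚ`), `p ≥ 5` a prime and `E : y² = x³ + Ax + B`,
`E' : y² = x³ + A'x + B'` elliptic curves with coefficients in the ring of integers of `K`. Suppose that
in a suitable basis of `E[p]` every matrix of determinant one over `𝔽_p` is the matrix of an element of
the absolute Galois group of `K`. (For `E` without complex multiplication this holds for all but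
finitely many `p` by Serre's theorem.) There is no condition on `E'`.

**Result.** `E` and `E'` are `p`-congruent if and only if

  `#E(k_v) ≡ #E'(k_v) mod p` for a set of places `v` of upper density greater than `p / (2 (p - 1))`.

So the upper density of the set of these places is either `1` or at most `p / (2 (p - 1))`, a number
which tends to `1/2` for `p → ∞` (`19/36` for `p = 19`). The bound is the best possible for `K = ℚ` and
all `p ≡ 3 (mod 4)`: if the Galois group acts on `E[p]` through `GL₂(𝔽_p)` and `E'` is the quadratic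
twist of `E` by `-p`, the density is `p / (2 (p - 1))` (this remark is not proved in this file).

Proof. For a Frobenius element `σ` at a place `v` of good reduction prime to `2 p` one has
`σ² - a_v σ + q_v = 0` on `E[p]`, `a_v = q_v + 1 - #E(k_v)`. From this relation, Chebotarev's density
theorem and the Weil pairing one gets a representation `ρ'` of the Galois group with traces `a'_v` which
is the one on `E'[p]` or abelian. Let `ρ` be the representation on `E[p]` and suppose `ρ' ≇ ρ`. By
Goursat's lemma and the simplicity of `PSL₂(𝔽_p)` there are two cases. Either `ρ(ker ρ')` contains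
`SL₂(𝔽_p)`; then `ρ'` is constant on cosets on which `ρ` takes all values in cosets of `SL₂(𝔽_p)`, in
which a given trace occurs with proportion at most `1 / (p - 1)`. Or `ρ' ≅ ρ ⊗ χ` for a character
`χ ≠ 1`, and the traces agree only if `χ = 1` or the trace is zero, which has proportion at most
`1 / 2 + 1 / (2 (p - 1)) = p / (2 (p - 1))`.
-/

set_option autoImplicit false

open WeierstrassCurve NumberField IsDedekindDomain

namespace Pool.Agent.Results.MP_a60a76_nt.MoreThanHalfOfThePlaces

section
variable {K : Type} [Field K]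

/-- The absolute Galois group. -/
abbrev Gal (K : Type) [Field K] : Type := AlgebraicClosure K ≃ₐ[K] AlgebraicClosure K

/-- The curve `y² = x³ + Ax + B` over the field `K`. -/
def curve (A B : K) : WeierstrassCurve K := ⟨0, 0, 0, A, B⟩

/-- The set of its points over the algebraic closure of `K`. -/
def Points (A B : K) : Type := ((curve A B).baseChange (AlgebraicClosure K)).toAffine.Point

open scoped Classical in
/-- The group law. -/
noncomputable instance (A B : K) : AddCommGroup (Points A B) :=
  inferInstanceAs (AddCommGroup ((curve A B).baseChange (AlgebraicClosure K)).toAffine.Point)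

open scoped Classical in
/-- The point `σ(P)`. -/
noncomputable def conj {A B : K} (σ : Gal K) (P : Points A B) : Points A B :=
  WeierstrassCurve.Affine.Point.map (W' := curve A B)
    (σ : AlgebraicClosure K →ₐ[K] AlgebraicClosure K) P

/-- The set of the points killed by `n`. -/
def Torsion (A B : K) (n : ℕ) : Set (Points A B) := {P | n • P = 0}

/-- The curves are `n`-congruent: there is an isomorphism `e : E[n] → E'[n]` of groups which commutes
with the Galois group (the values of `e` at the other points are irrelevant). -/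
def Congruent (A B A' B' : K) (n : ℕ) : Prop :=
  ∃ e : Points A B → Points A' B', Set.BijOn e (Torsion A B n) (Torsion A' B' n) ∧
    (∀ P ∈ Torsion A B n, ∀ Q ∈ Torsion A B n, e (P + Q) = e P + e Q) ∧
    ∀ (σ : Gal K), ∀ P ∈ Torsion A B n, e (conj σ P) = conj σ (e P)

/-- The points `P` and `Q` form a basis of the `n`-torsion. -/
def IsBasis {A B : K} (n : ℕ) (P Q : Points A B) : Prop :=
  n • P = 0 ∧ n • Q = 0 ∧ (∀ R : Points A B, n • R = 0 → ∃ k m : ℤ, R = k • P + m • Q) ∧
    ∀ k m : ℤ, k • P + m • Q = 0 → (n : ℤ) ∣ k ∧ (n : ℤ) ∣ m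

/-- There is a basis `P, Q` of the `p`-torsion in which every matrix of determinant `1` modulo `p` is
the matrix of some element of the Galois group. -/
def ContainsSL (A B : K) (p : ℕ) : Prop :=
  ∃ P Q : Points A B, IsBasis p P Q ∧ ∀ a b c d : ℤ, (p : ℤ) ∣ a * d - b * c - 1 →
    ∃ σ : Gal K, conj σ P = a • P + c • Q ∧ conj σ Q = b • P + d • Q

end

section
variable {K : Type} [Field K] [NumberField K]

/-- The number of points of the reduction of `y² = x³ + Ax + B` modulo `v`. -/
noncomputable def numPoints (v : HeightOneSpectrum (𝓞 K)) (A B : 𝓞 K) : ℕ :=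
  1 + Nat.card {P : (𝓞 K ⧸ v.asIdeal) × (𝓞 K ⧸ v.asIdeal) // P.2 ^ 2 =
    P.1 ^ 3 + Ideal.Quotient.mk v.asIdeal A * P.1 + Ideal.Quotient.mk v.asIdeal B}

/-- The upper density of the set `S` of places is greater than `c`: for some `δ > c` there are
arbitrarily large `N` such that the proportion of the elements of `S` among the places of norm at most
`N` is at least `δ`. -/
def UpperDensityGreater (S : Set (HeightOneSpectrum (𝓞 K))) (c : ℝ) : Prop :=
  ∃ δ > c, ∀ M : ℕ, ∃ N ≥ M,
    δ * ({v : HeightOneSpectrum (𝓞 K) | Ideal.absNorm v.asIdeal ≤ N}.ncard : ℝ) ≤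
      ({v : HeightOneSpectrum (𝓞 K) | v ∈ S ∧ Ideal.absNorm v.asIdeal ≤ N}.ncard : ℝ)

end

section
open Pool.Agent.Y673.Loc Pool.Agent.H502.EC Pool.Agent.W401.Cheb
variable {K : Type} [Field K]

open scoped Classical in
theorem congruent_of_isoP {A B A' B' : K} {p : ℕ} (h : IsoP A B A' B' p) :
    Congruent A B A' B' p := by
  obtain ⟨f, hf⟩ := h
  have m1 : ∀ P : Points A B, P ∈ Torsion A B p → (P : EP A B) ∈ TT A B p := fun P hP => hP
  let e : Points A B → Points A' B' := fun P => by
    by_cases hP : P ∈ Torsion A B p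
    · exact ((f ⟨P, hP⟩ : TT A' B' p) : EP A' B')
    · exact (0 : EP A' B')
  have he : ∀ P (hP : P ∈ Torsion A B p), e P = ((f ⟨P, hP⟩ : TT A' B' p) : EP A' B') := by
    intro P hP
    simp only [e]
    rw [dif_pos hP]
  refine ⟨e, ⟨?_, ?_, ?_⟩, ?_, ?_⟩
  · intro P hP
    rw [he P hP]
    exact (f ⟨P, hP⟩).2
  · intro P hP Q hQ hPQ
    rw [he P hP, he Q hQ] at hPQ
    have h1 := f.injective (Subtype.ext hPQ)
    exact congrArg Subtype.val h1
  · intro Q hQ
    obtain ⟨R, hR⟩ := f.surjective (⟨Q, hQ⟩ : TT A' B' p)
    refine ⟨R.1, R.2, ?_⟩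
    rw [he R.1 R.2]
    exact congrArg Subtype.val hR
  · intro P hP Q hQ
    have hPQ : P + Q ∈ Torsion A B p := by
      change p • (P + Q) = 0
      rw [smul_add, show p • P = 0 from hP, show p • Q = 0 from hQ, add_zero]
    rw [he _ hPQ, he P hP, he Q hQ]
    exact congrArg Subtype.val (f.map_add ⟨P, hP⟩ ⟨Q, hQ⟩)
  · intro σ P hP
    have h1 : conj σ P ∈ Torsion A B p := (aa A B p σ ⟨P, hP⟩).2
    rw [he _ h1, he P hP]
    exact congrArg Subtype.val (hf σ ⟨P, hP⟩)

open scoped Classical in
theorem isoP_of_congruent {A B A' B' : K} {p : ℕ} (h : Congruent A B A' B' p) :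
    IsoP A B A' B' p := by
  obtain ⟨e, hb, hadd, hσ⟩ := h
  let F : TT A B p →+ TT A' B' p :=
    AddMonoidHom.mk' (fun R => ⟨e R.1, hb.mapsTo R.2⟩) (fun R S => Subtype.ext (hadd R.1 R.2 S.1 S.2))
  have hF : Function.Bijective F := by
    constructor
    · intro R S hRS
      exact Subtype.ext (hb.injOn R.2 S.2 (congrArg Subtype.val hRS))
    · intro Q
      obtain ⟨P, hP, hPQ⟩ := hb.surjOn Q.2
      exact ⟨⟨P, hP⟩, Subtype.ext hPQ⟩
  refine ⟨AddEquiv.ofBijective F hF, fun x R => ?_⟩
  exact Subtype.ext (hσ x R.1 R.2)

open scoped Classical in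
theorem containsSL {A B : K} {p : ℕ} (h : ContainsSL A B p) : HasSLp A B p := by
  obtain ⟨P, Q, ⟨h1, h2, h3, h4⟩, h5⟩ := h
  exact ⟨P, Q, h1, h2, h3, h4, h5⟩

end

/-- **Two elliptic curves are `p`-congruent if and only if their numbers of points are congruent modulo
`p` at a set of places of upper density greater than `p / (2 (p - 1))`.** Here `p ≥ 5` and the Galois
group acts on the `p`-torsion of the first curve through a group which contains `SL₂(𝔽_p)`. -/
theorem result (K : Type) [Field K] [NumberField K] (A B A' B' : 𝓞 K)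
    (hE : 4 * A ^ 3 + 27 * B ^ 2 ≠ 0) (hE' : 4 * A' ^ 3 + 27 * B' ^ 2 ≠ 0)
    (p : ℕ) (hp : p.Prime) (h5 : 5 ≤ p) (hSL : ContainsSL (A : K) (B : K) p) :
    Congruent (A : K) (B : K) (A' : K) (B' : K) p ↔
      UpperDensityGreater {v : HeightOneSpectrum (𝓞 K) |
        (p : ℤ) ∣ (numPoints v A B : ℤ) - numPoints v A' B'} ((p : ℝ) / (2 * (p - 1))) := by
  haveI : Fact p.Prime := ⟨hp⟩
  have h := Pool.Agent.H502.EC.isoP_iff hE hE' h5 (containsSL hSL)
  exact ⟨fun hc => h.1 (isoP_of_congruent hc), fun hc => congruent_of_isoP (h.2 hc)⟩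

end Pool.Agent.Results.MP_a60a76_nt.MoreThanHalfOfThePlaces
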