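import Pool.Agent.H452.K11

/-!
# MP_a60a76_nt: explicit classes of curves which are never congruent to curves with complex multiplication

Let `K` be a number field (for instance `ℚ`), `p` an odd prime and `E : y² = x³ + Ax + B` an elliptic
curve over `K`, `j` its invariant, `Δ = 4A³ + 27B²`.  We suppose (T) or (R):

* (T) Some prime `v` above `2` is primitive for `E` (`PrimitiveAt`):
  * (a) `ord_v(A) = 1` and `ord_v(B) = ord_v(2) + 1`, or
  * (b) `0 < ord_v(j) < 12 ord_v(2)` and `ord_v(j)` is divisible neither by `3` nor by `4`, or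
  * (c) the decomposition group of a prime of `K̄` above `v` acts on `E[3]` through a group which
    contains `SL₂(𝔽₃)`.
* (R) `p ≥ 5`, some prime `v ∤ p` is rigid for `E` (`Rigid`), and there is a prime `w` such that
  `ord_w(j) < 0` is not divisible by `p` (and `8 ord_w(p) < p² - 1` if `w ∣ p`).  The prime `v` is rigid if
  * `v ∤ 2`, `3 ∤ ord_v(B)`, `2 ord_v(B) < 3 ord_v(A)` and `-Δ` is not a square in `K_v`, or
  * `v ∤ 2`, `ord_v(A)` is odd, `3 ord_v(A) < 2 ord_v(B)` and `-1` is not a square in `K_v`, or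
  * `v ∣ 2`, `ord_v(j) > 0`, and the decomposition group of a prime of `K̄` above `v` acts on `E[3]`
    through a nonabelian group, or `3 ∤ ord_v(j)` and the residue field has `N(v) ≡ 2 mod 3` elements.

**Result.**  Let `E'` be any elliptic curve over `K` such that `E[p]` and `E'[p]` are isomorphic as
Galois modules.

(1) `E'` has no complex multiplication, in the following form (`HasCM`): there are no endomorphism `α`
    of the group `E'(K̄)` and integer `t` such that `α ∘ σ = σ ∘ α` or `α ∘ σ = σ ∘ (t - α)` for every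
    `σ ∈ Gal(K̄/K)` and such that `α` is not the multiplication by an integer on `E'[p]`.  (If `E'` has
    complex multiplication by the quadratic order `ℤ[α]`, with `α` of trace `t`, then `α` has these
    properties for all `p`: the other conjugate of `α` is `t - α`, and `(α - c) / p` is not in `ℤ[α]`.)
(2) More generally the image of the Galois group in `Aut(E'[p])` is not contained in the normaliser of
    any Cartan subgroup (split or not) and stabilises no line: an endomorphism of `E'[p]` which is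
    preserved by the Galois group up to the conjugation `β ↦ t - β` is an integer, and no line of
    `E'[p]` is stable.

So the Frey–Mazur implication (congruent curves are isogenous) holds, uniformly in both curves, for the
pairs of a curve of one of these classes and a curve with complex multiplication: such curves are never
congruent, for ALL odd `p` in the class (T), and, for instance over `ℚ`, for all `p ≥ 5`, `p ≠ v`, for the
curves with a rigid prime `v` (for example `v = 2` if `ord_2(j) > 0` is not divisible by `3`) and with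
`ord_w(j) = -1` for some prime number `w`.

Proof.  (T): The decomposition group contains elements `i, j, g` with `i² = -1`, `ij = -ji`, `gi = jg`,
`gj = ijg` on `E[p]`, hence also on `E'[p]`.  The relations force the endomorphism `β` to commute with
`i` and `j`; an endomorphism which commutes with the quaternions `i, j` is a scalar.  (R): The image of
the Galois group in `Aut(E[p])`, and so in `Aut(E'[p])`, contains `SL₂(𝔽_p)` (see
`MP_d87173_nt.RigidPrime`); `β` commutes with the squares, hence with the unipotent elements.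
-/

set_option autoImplicit false

open WeierstrassCurve NumberField IsDedekindDomain

namespace Pool.Agent.Results.MP_a60a76_nt.NotCongruentToCM

section
variable {K : Type} [Field K]

/-- The absolute Galois group. -/
abbrev Gal (K : Type) [Field K] : Type := AlgebraicClosure K ≃ₐ[K] AlgebraicClosure K

/-- The curve `y² = x³ + Ax + B` over the field `K`. -/
def curve (A B : K) : WeierstrassCurve K := ⟨0, 0, 0, A, B⟩

/-- Its `j`-invariant. -/
noncomputable def invariant (A B : K) : K := 1728 * (4 * A ^ 3) / (4 * A ^ 3 + 27 * B ^ 2)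

/-- The set of its points over the algebraic closure of `K`. -/
def Points (A B : K) : Type := ((curve A B).baseChange (AlgebraicClosure K)).toAffine.Point

open scoped Classical in
/-- The group law. -/
noncomputable instance (A B : K) : AddCommGroup (Points A B) :=
  inferInstanceAs (AddCommGroup ((curve A B).baseChange (AlgebraicClosure K)).toAffine.Point)

open scoped Classical in
/-- The point `σ(P)`. -/
noncomputable def conj {A B : K} (σ : Gal K) (P : Points A B) : Points A B :=
  WeierstrassCurve.Affine.Point.map (W' := curve A B)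
    (σ : AlgebraicClosure K →ₐ[K] AlgebraicClosure K) P

/-- The set of the points killed by `n`. -/
def Torsion (A B : K) (n : ℕ) : Set (Points A B) := {P | n • P = 0}

/-- The curves are `n`-congruent: there is an isomorphism `e : E[n] → E'[n]` of groups which commutes
with the Galois group (the values of `e` at the other points are irrelevant). -/
def Congruent (A B A' B' : K) (n : ℕ) : Prop :=
  ∃ e : Points A B → Points A' B', Set.BijOn e (Torsion A B n) (Torsion A' B' n) ∧
    (∀ P ∈ Torsion A B n, ∀ Q ∈ Torsion A B n, e (P + Q) = e P + e Q) ∧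
    ∀ (σ : Gal K), ∀ P ∈ Torsion A B n, e (conj σ P) = conj σ (e P)

/-- The points `P` and `Q` form a basis of the `n`-torsion. -/
def IsBasis {A B : K} (n : ℕ) (P Q : Points A B) : Prop :=
  n • P = 0 ∧ n • Q = 0 ∧ (∀ R : Points A B, n • R = 0 → ∃ k m : ℤ, R = k • P + m • Q) ∧
    ∀ k m : ℤ, k • P + m • Q = 0 → (n : ℤ) ∣ k ∧ (n : ℤ) ∣ m

/-- There is a basis `P, Q` of the `3`-torsion in which every matrix of determinant `1` modulo `3` is
the matrix of some `σ ∈ I`. -/
def ContainsSLThree (A B : K) (I : Set (Gal K)) : Prop :=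
  ∃ P Q : Points A B, IsBasis 3 P Q ∧ ∀ a b c d : ℤ, (3 : ℤ) ∣ a * d - b * c - 1 →
    ∃ σ ∈ I, conj σ P = a • P + c • Q ∧ conj σ Q = b • P + d • Q

end

variable {K : Type} [Field K] [NumberField K]

/-- The normalised valuation `ord_v(x)` of `x ∈ K`, for a prime `v` of `K` (used for `x ≠ 0`; for
`x = 0` the value is `0` by convention). -/
noncomputable def ord (v : HeightOneSpectrum (𝓞 K)) (x : K) : ℤ := -WithZero.log (v.valuation K x)

/-- The decomposition group of a prime ideal `𝔓` of the ring of all algebraic integers of `K̄`: the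
automorphisms `σ` such that an algebraic integer `x` lies in `𝔓` if and only if `σ(x)` does. -/
def decomposition (𝔓 : Ideal (𝓞 (AlgebraicClosure K))) : Set (Gal K) :=
  {σ | ∀ x : 𝓞 (AlgebraicClosure K), x ∈ 𝔓 ↔
    ∃ y ∈ 𝔓, σ (x : AlgebraicClosure K) = (y : AlgebraicClosure K)}

/-- The hypothesis (T) at the prime `v` (above `2`). -/
def PrimitiveAt (A B : K) (v : HeightOneSpectrum (𝓞 K)) : Prop :=
  (ord v A = 1 ∧ ord v B = ord v 2 + 1) ∨
  (0 < ord v (invariant A B) ∧ ord v (invariant A B) < 12 * ord v 2 ∧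
    ¬ (3 : ℤ) ∣ ord v (invariant A B) ∧ ¬ (4 : ℤ) ∣ ord v (invariant A B)) ∨
  (∃ 𝔓 : Ideal (𝓞 (AlgebraicClosure K)), 𝔓.IsPrime ∧
    𝔓.comap (algebraMap (𝓞 K) (𝓞 (AlgebraicClosure K))) = v.asIdeal ∧
    ContainsSLThree A B (decomposition 𝔓))

/-- The hypothesis (D) at the prime `w` (above any prime number): the order of `j(E)` at `w` is
negative and not divisible by `p`; if `w` is above `p`, then `8 ord_w(p) < p² - 1`. -/
def NotPowerAt (A B : K) (p : ℕ) (w : HeightOneSpectrum (𝓞 K)) : Prop :=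
  ord w (invariant A B) < 0 ∧ ¬ (p : ℤ) ∣ ord w (invariant A B) ∧
    ((p : 𝓞 K) ∉ w.asIdeal ∨ 8 * ord w (p : K) < (p : ℤ) ^ 2 - 1)

/-- The element `c ≠ 0` is a square in the completion of `K` at `v`: there is a `y` such that `c / y²`
is `1` modulo `4 π`, where `π` is a uniformiser. -/
def LocalSquare (v : HeightOneSpectrum (𝓞 K)) (c : K) : Prop :=
  ∃ y : K, y ≠ 0 ∧ (c / y ^ 2 - 1 = 0 ∨ 2 * ord v 2 + 1 ≤ ord v (c / y ^ 2 - 1))

/-- The decomposition group of a prime above `v` acts on the `3`-torsion through a nonabelian group. -/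
def NonabelianAt (A B : K) (v : HeightOneSpectrum (𝓞 K)) : Prop :=
  ∃ 𝔓 : Ideal (𝓞 (AlgebraicClosure K)), 𝔓.IsPrime ∧
    𝔓.comap (algebraMap (𝓞 K) (𝓞 (AlgebraicClosure K))) = v.asIdeal ∧
    ∃ σ ∈ decomposition 𝔓, ∃ τ ∈ decomposition 𝔓, ∃ P : Points A B, 3 • P = 0 ∧
      conj σ (conj τ P) ≠ conj τ (conj σ P)

/-- The prime `v` is rigid. -/
def Rigid (A B : K) (v : HeightOneSpectrum (𝓞 K)) : Prop :=
  (ord v 2 = 0 ∧ ¬ (3 : ℤ) ∣ ord v B ∧ 2 * ord v B < 3 * ord v A ∧
    ¬ LocalSquare v (-(4 * A ^ 3 + 27 * B ^ 2))) ∨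
  (ord v 2 = 0 ∧ ¬ (2 : ℤ) ∣ ord v A ∧ 3 * ord v A < 2 * ord v B ∧ ¬ LocalSquare v (-1 : K)) ∨
  ((2 : 𝓞 K) ∈ v.asIdeal ∧ 0 < ord v (invariant A B) ∧
    (NonabelianAt A B v ∨
      (¬ (3 : ℤ) ∣ ord v (invariant A B) ∧ Nat.card (𝓞 K ⧸ v.asIdeal) % 3 = 2)))

/-- The condition (T) or (R). -/
def Admissible (A B : K) (p : ℕ) : Prop :=
  (∃ v : HeightOneSpectrum (𝓞 K), (2 : 𝓞 K) ∈ v.asIdeal ∧ PrimitiveAt A B v) ∨
  (5 ≤ p ∧ ∃ v w : HeightOneSpectrum (𝓞 K), (p : 𝓞 K) ∉ v.asIdeal ∧ Rigid A B v ∧
    NotPowerAt A B p w)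

/-- The curve has complex multiplication, as seen at the prime `p`: some endomorphism `α` of the group
of points over `K̄`, which is not the multiplication by an integer on the points of order `p`, is mapped
by each `σ ∈ Gal(K̄/K)` to `α` or to `t - α` (for a fixed integer `t`). -/
def HasCM (A B : K) (p : ℕ) : Prop :=
  ∃ (α : Points A B →+ Points A B) (t : ℤ),
    (∀ σ : Gal K, (∀ P, α (conj σ P) = conj σ (α P)) ∨ (∀ P, α (conj σ P) = conj σ (t • P - α P))) ∧
    ¬ ∃ c : ℤ, ∀ P : Points A B, p • P = 0 → α P = c • P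

/-- The image of the Galois group in `Aut(E[p])` is contained in the normaliser of the algebra
generated by an endomorphism `β` of `E[p]` which is not an integer (the endomorphism is the restriction
of a map `β` on the set of all points; its values at the points outside `E[p]` are irrelevant). -/
def InNormaliser (A B : K) (p : ℕ) : Prop :=
  ∃ (β : Points A B → Points A B) (t : ℤ), (∀ P, p • P = 0 → p • β P = 0) ∧
    (∀ P Q, p • P = 0 → p • Q = 0 → β (P + Q) = β P + β Q) ∧
    (∀ σ : Gal K, (∀ P, p • P = 0 → β (conj σ P) = conj σ (β P)) ∨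
      (∀ P, p • P = 0 → β (conj σ P) = conj σ (t • P - β P))) ∧
    ¬ ∃ c : ℤ, ∀ P : Points A B, p • P = 0 → β P = c • P

/-- A line of `E[p]` is stable. -/
def HasStableLine (A B : K) (p : ℕ) : Prop :=
  ∃ P : Points A B, p • P = 0 ∧ P ≠ 0 ∧ ∀ σ : Gal K, ∃ c : ℤ, conj σ P = c • P

open scoped Classical in
/-- the isomorphism of the groups -/
theorem exists_equiv {A B A' B' : K} {n : ℕ} (h : Congruent A B A' B' n) :
    ∃ e : Pool.Agent.H452.TE A B n ≃+ Pool.Agent.H452.TE A' B' n,
      ∀ σ P, e (Pool.Agent.H452.aT A B n σ P) = Pool.Agent.H452.aT A' B' n σ (e P) := by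
  obtain ⟨e, h1, h2, h3⟩ := h
  set f : Torsion A B n ≃ Torsion A' B' n := Set.BijOn.equiv e h1 with hf
  refine ⟨⟨f, fun P Q => ?_⟩, fun σ P => ?_⟩
  · apply Subtype.ext
    exact h2 P.1 P.2 Q.1 Q.2
  · apply Subtype.ext
    exact h3 σ P.1 P.2

theorem hyp_of {A B : K} {v : HeightOneSpectrum (𝓞 K)} (hv : PrimitiveAt A B v) :
    Pool.Agent.H452.Hyp A B v := by
  have hj : Pool.Agent.Y673.Loc.jv A B = invariant A B := by
    unfold Pool.Agent.Y673.Loc.jv invariant
    ring
  unfold Pool.Agent.H452.Hyp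
  rw [hj]
  rcases hv with h | h | ⟨𝔓, h𝔓, hv, P, Q, ⟨hP, hQ, hs, hi⟩, hall⟩
  · exact Or.inl h
  · exact Or.inr (Or.inl h)
  · obtain ⟨hP0, hPQ⟩ := Pool.Agent.H452.ne_of_basis (by norm_num) hi
    exact Or.inr (Or.inr ⟨𝔓, h𝔓, hv, P, Q, hP, hQ, hP0, hPQ, hall⟩)

theorem rgd_of {A B : K} {v : HeightOneSpectrum (𝓞 K)} (hv : Rigid A B v) :
    Pool.Agent.H452.Rgd2 A B v := by
  have hj : Pool.Agent.Y673.Loc.jv A B = invariant A B := by
    unfold Pool.Agent.Y673.Loc.jv invariant
    ring
  rcases hv with ⟨h1, h2, h3, h4⟩ | ⟨h1, h2, h3, h4⟩ | ⟨h2, h3, h4 | ⟨h4, h5⟩⟩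
  · exact Or.inl ⟨⟨h1, h2, h3⟩, h4⟩
  · exact Or.inr (Or.inl ⟨⟨h1, h2, h3⟩, h4⟩)
  · refine Or.inr (Or.inr (Or.inl ⟨h2, ?_, h4⟩))
    rw [hj]
    exact h3
  · refine Or.inr (Or.inr (Or.inr ⟨h2, ?_, ?_, h5⟩))
    · rw [hj]; exact h3
    · rw [hj]; exact h4

open scoped Classical in
/-- the large image in the case (R) -/
theorem hasSL_of {A B : K} (hD : 4 * A ^ 3 + 27 * B ^ 2 ≠ 0) {p : ℕ} (hp : p.Prime) (h5 : 5 ≤ p)
    {v w : HeightOneSpectrum (𝓞 K)} (hpv : (p : 𝓞 K) ∉ v.asIdeal) (hv : Rigid A B v)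
    (hw : NotPowerAt A B p w) : Pool.Agent.Y673.SL.HasSL A B p := by
  have hj : ∀ C D : K, Pool.Agent.Y673.Loc.jv C D = invariant C D := by
    intro C D
    unfold Pool.Agent.Y673.Loc.jv invariant
    ring
  obtain ⟨h1, h3, h4⟩ := hw
  have h8 : 8 * ord w (p : K) < (p : ℤ) ^ 2 - 1 := by
    rcases h4 with h4 | h4
    · have e : ord w (p : K) = 0 := Pool.Agent.H452.ord_zero_of_notMem (K := K) hp.ne_zero h4
      rw [e]
      have : (25 : ℤ) ≤ (p : ℤ) ^ 2 := by
        have h5' : (5 : ℤ) ≤ p := by exact_mod_cast h5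
        nlinarith
      omega
    · exact h4
  have hA : A ≠ 0 := by
    rintro rfl
    have e : invariant (0 : K) B = 0 := by
      unfold invariant
      simp
    rw [e] at h1
    have : ord w (0 : K) = 0 := by simp [ord]
    omega
  have hB : B ≠ 0 := by
    rintro rfl
    have e : invariant A (0 : K) = ((1728 : ℕ) : K) := by
      unfold invariant
      field_simp
      push_cast
      ring
    rw [e] at h1
    have : 0 ≤ ord w ((1728 : ℕ) : K) :=
      Pool.Agent.Y673.Loc.v_natCast_nonneg w 1728 (by norm_num)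
    omega
  exact Pool.Agent.H452.main_eight hD hA hB hp h5 hpv (rgd_of hv) (w := w)
    (by rw [hj]; exact h1) (by rw [hj]; exact h3) h8

/-- **Curves which satisfy (T) or (R) are not congruent to curves with complex multiplication.** -/
theorem result {A B A' B' : K} (hD : 4 * A ^ 3 + 27 * B ^ 2 ≠ 0)
    (hD' : 4 * A' ^ 3 + 27 * B' ^ 2 ≠ 0) {p : ℕ} (hp : p.Prime) (hp2 : p ≠ 2)
    (h : Admissible A B p) :
    (HasCM A' B' p → ¬ Congruent A B A' B' p) ∧
    (Congruent A B A' B' p → ¬ InNormaliser A' B' p ∧ ¬ HasStableLine A' B' p) := by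
  rcases h with ⟨v, h2, hv⟩ | ⟨h5, v, w, hpv, hv, hw⟩
  · have hH := hyp_of hv
    refine ⟨?_, fun hc => ⟨?_, ?_⟩⟩
    · rintro ⟨α, t, hα, hno⟩ hc
      obtain ⟨e, he⟩ := exists_equiv hc
      exact hno (Pool.Agent.H452.no_cm hD hD' h2 hH hp hp2 (dvd_refl p) e he α t hα)
    · rintro ⟨β, t, h1, h3, h4, hno⟩
      obtain ⟨e, he⟩ := exists_equiv hc
      exact hno (Pool.Agent.H452.no_norm hD hD' h2 hH hp hp2 (dvd_refl p) e he β t h1 h3 h4)
    · rintro ⟨P, hP, hP0, hst⟩
      obtain ⟨e, he⟩ := exists_equiv hc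
      exact Pool.Agent.H452.no_line' hD h2 hH hp hp2 (dvd_refl p) e he hP hP0 hst
  · have hSL := hasSL_of hD hp h5 hpv hv hw
    refine ⟨?_, fun hc => ⟨?_, ?_⟩⟩
    · rintro ⟨α, t, hα, hno⟩ hc
      obtain ⟨e, he⟩ := exists_equiv hc
      exact hno (Pool.Agent.H452.no_cm_SL hD' hp hp2
        (Pool.Agent.H452.hasSL_congr hSL e he) α t hα)
    · rintro ⟨β, t, h1, h3, h4, hno⟩
      obtain ⟨e, he⟩ := exists_equiv hc
      exact hno (Pool.Agent.H452.no_norm_SL hD' hp hp2
        (Pool.Agent.H452.hasSL_congr hSL e he) β t h1 h3 h4)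
    · rintro ⟨P, hP, hP0, hst⟩
      obtain ⟨e, he⟩ := exists_equiv hc
      exact Pool.Agent.H452.no_line_SL hD' hp hp2
        (Pool.Agent.H452.hasSL_congr hSL e he) hP hP0 hst

end Pool.Agent.Results.MP_a60a76_nt.NotCongruentToCM
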